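import Mathlib

/-! Numerical estimates for the method of Alford, Granville and Pomerance. -/

set_option autoImplicit false

namespace Pool.Agent.V1194.AGP

open Finset Filter

theorem numerics (K : ℕ) (hK : 1 ≤ K) (c ε : ℝ) (hc : 0 < c) (hε : 0 < ε) (N z0 : ℕ) :
    ∃ r : ℕ, 1 ≤ r ∧ z0 ≤ 2 ^ r ∧ N ≤ r ∧
      (2 * (r : ℝ) ^ 3 + 1) * (1 + 16 * K * r ^ 2) ≤ c * 2 ^ (r - 1) ∧
      2 * (r : ℝ) ^ 3 * (1 + 256 * K ^ 2 * r ^ 5) ≤ c * 2 ^ r ∧
      (1 + 256 * (K : ℝ) ^ 2 * r ^ 5) * (2 ^ (16 * (K + 1) * r ^ 2 + r) * (16 * K * r ^ 2) + 2) ≤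
        c / 2 * 2 ^ (r ^ 3) ∧
      c * 2 ^ (r ^ 3) ≤ ε * 2 ^ (r ^ 4) := by
  obtain ⟨B, hB⟩ : ∃ B : ℝ, B = 1000 * K ^ 2 / c + 1000 * K ^ 2 + 2 / c + c / ε + 1 := ⟨_, rfl⟩
  have hK1 : (1 : ℝ) ≤ K := by exact_mod_cast hK
  have hK2 : (K : ℝ) ≤ K ^ 2 := by nlinarith
  have hKc : 0 ≤ 1000 * (K : ℝ) ^ 2 / c := by positivity
  have h2c : 0 < 2 / c := by positivity
  have hcε : 0 < c / ε := by positivity
  have hB0 : 0 < B := by rw [hB]; positivity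
  have h1 := tendsto_pow_const_div_const_pow_of_one_lt 10 (show (1 : ℝ) < 2 by norm_num)
  have h2 : ∀ᶠ n : ℕ in atTop, (n : ℝ) ^ 10 / 2 ^ n < 1 / B := h1.eventually_lt_const (by positivity)
  obtain ⟨r, hr, hr2⟩ := (h2.and (eventually_ge_atTop (16 * (K + 1) + 4 + N + z0))).exists
  have hr1 : 1 ≤ r := by omega
  have hrr : (1 : ℝ) ≤ r := by exact_mod_cast hr1
  have hBr : B * (r : ℝ) ^ 10 ≤ 2 ^ r := by
    rw [div_lt_div_iff₀ (by positivity) hB0] at hr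
    linarith
  have hp : ∀ m : ℕ, m ≤ 10 → (r : ℝ) ^ m ≤ r ^ 10 := fun m hm => pow_le_pow_right₀ hrr hm
  have hr10 : (1 : ℝ) ≤ (r : ℝ) ^ 10 := one_le_pow₀ hrr
  -- comparison of constants
  have hc1 : ∀ x : ℝ, 0 ≤ x → x ≤ B → ∀ m : ℕ, m ≤ 10 → x * (r : ℝ) ^ m ≤ 2 ^ r := by
    intro x hx hxB m hm
    calc x * (r : ℝ) ^ m ≤ B * (r : ℝ) ^ 10 := mul_le_mul hxB (hp m hm) (by positivity) hB0.le
      _ ≤ 2 ^ r := hBr
  have hlin : 16 * (K + 1) * r ^ 2 + 4 * r ≤ r ^ 3 := by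
    have h3 : 16 * (K + 1) + 4 ≤ r := by omega
    calc 16 * (K + 1) * r ^ 2 + 4 * r ≤ 16 * (K + 1) * r ^ 2 + 4 * r ^ 2 := by nlinarith
      _ = (16 * (K + 1) + 4) * r ^ 2 := by ring
      _ ≤ r * r ^ 2 := Nat.mul_le_mul_right _ h3
      _ = r ^ 3 := by ring
  have h2r : (1 : ℝ) ≤ 2 ^ r := one_le_pow₀ (by norm_num)
  refine ⟨r, hr1, ?_, by omega, ?_, ?_, ?_, ?_⟩
  · have h3 : z0 ≤ r := by omega
    exact h3.trans (Nat.lt_two_pow_self).le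
  · have h3 : (2 : ℝ) ^ r = 2 ^ (r - 1) * 2 := by
      rw [← pow_succ]
      congr 1
      omega
    have h4 := hc1 (102 * K ^ 2 / c) (by positivity) (by
      rw [hB]
      have : 102 * (K : ℝ) ^ 2 / c ≤ 1000 * K ^ 2 / c := by
        apply div_le_div_of_nonneg_right _ hc.le
        nlinarith
      have h5 : 0 ≤ 1000 * (K : ℝ) ^ 2 := by positivity
      linarith) 5 (by norm_num)
    rw [div_mul_eq_mul_div, div_le_iff₀ hc] at h4
    have h5 : (2 * (r : ℝ) ^ 3 + 1) ≤ 3 * r ^ 3 := by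
      have := one_le_pow₀ (n := 3) hrr
      linarith
    have h6 : 1 + 16 * (K : ℝ) * r ^ 2 ≤ 17 * K ^ 2 * r ^ 2 := by
      have h7 : (1 : ℝ) ≤ K ^ 2 * r ^ 2 := by
        have h8 := one_le_pow₀ (n := 2) hrr
        nlinarith
      have h8 : (K : ℝ) * r ^ 2 ≤ K ^ 2 * r ^ 2 := mul_le_mul_of_nonneg_right hK2 (by positivity)
      linarith
    have h9 : (2 * (r : ℝ) ^ 3 + 1) * (1 + 16 * K * r ^ 2) ≤ (3 * r ^ 3) * (17 * K ^ 2 * r ^ 2) :=
      mul_le_mul h5 h6 (by positivity) (by positivity)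
    have h10 : (3 * (r : ℝ) ^ 3) * (17 * K ^ 2 * r ^ 2) = 102 * K ^ 2 * r ^ 5 / 2 := by ring
    rw [h10] at h9
    rw [h3] at h4
    linarith
  · have h4 := hc1 (514 * K ^ 2 / c) (by positivity) (by
      rw [hB]
      have : 514 * (K : ℝ) ^ 2 / c ≤ 1000 * K ^ 2 / c := by
        apply div_le_div_of_nonneg_right _ hc.le
        nlinarith
      have h5 : 0 ≤ 1000 * (K : ℝ) ^ 2 := by positivity
      linarith) 8 (by norm_num)
    rw [div_mul_eq_mul_div, div_le_iff₀ hc] at h4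
    have h6 : 1 + 256 * (K : ℝ) ^ 2 * r ^ 5 ≤ 257 * K ^ 2 * r ^ 5 := by
      have h7 : (1 : ℝ) ≤ K ^ 2 * r ^ 5 := by
        have h8 := one_le_pow₀ (n := 5) hrr
        nlinarith
      linarith
    have h7 : 2 * (r : ℝ) ^ 3 * (1 + 256 * K ^ 2 * r ^ 5) ≤ 2 * r ^ 3 * (257 * K ^ 2 * r ^ 5) :=
      mul_le_mul_of_nonneg_left h6 (by positivity)
    have h8 : 2 * (r : ℝ) ^ 3 * (257 * K ^ 2 * r ^ 5) = 514 * K ^ 2 * r ^ 8 := by ring
    rw [h8] at h7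
    linarith
  · have h6 : 1 + 256 * (K : ℝ) ^ 2 * r ^ 5 ≤ 2 ^ r := by
      have h7 : (1 : ℝ) ≤ K ^ 2 * r ^ 5 := by
        have h8 := one_le_pow₀ (n := 5) hrr
        nlinarith
      have h4 := hc1 (257 * K ^ 2) (by positivity) (by
        rw [hB]
        nlinarith) 5 (by norm_num)
      linarith
    have h7 : 16 * (K : ℝ) * r ^ 2 + 2 ≤ 2 ^ r := by
      have h4 := hc1 (18 * K ^ 2) (by positivity) (by
        rw [hB]
        nlinarith) 2 (by norm_num)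
      have h8 : (1 : ℝ) ≤ K ^ 2 * r ^ 2 := by
        have h8 := one_le_pow₀ (n := 2) hrr
        nlinarith
      have h9 : (K : ℝ) * r ^ 2 ≤ K ^ 2 * r ^ 2 := mul_le_mul_of_nonneg_right hK2 (by positivity)
      linarith
    have h8 : 1 ≤ c / 2 * 2 ^ r := by
      have h4 := hc1 (2 / c) h2c.le (by
        rw [hB]
        have : 0 ≤ 1000 * (K : ℝ) ^ 2 := by positivity
        linarith) 0 (by norm_num)
      rw [pow_zero, mul_one, div_le_iff₀ hc] at h4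
      linarith
    have h9 : (2 : ℝ) ^ (16 * (K + 1) * r ^ 2 + r) * (16 * K * r ^ 2) + 2 ≤
        2 ^ (16 * (K + 1) * r ^ 2 + r) * 2 ^ r := by
      have h10 : (1 : ℝ) ≤ 2 ^ (16 * (K + 1) * r ^ 2 + r) := one_le_pow₀ (by norm_num)
      obtain ⟨w, hw⟩ : ∃ w : ℝ, w = 2 ^ (16 * (K + 1) * r ^ 2 + r) := ⟨_, rfl⟩
      rw [← hw] at h10 ⊢
      have h11 : w * (16 * K * r ^ 2 + 2) ≤ w * 2 ^ r := mul_le_mul_of_nonneg_left h7 (by linarith)
      nlinarith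
    calc (1 + 256 * (K : ℝ) ^ 2 * r ^ 5) * (2 ^ (16 * (K + 1) * r ^ 2 + r) * (16 * K * r ^ 2) + 2)
        ≤ 2 ^ r * (2 ^ (16 * (K + 1) * r ^ 2 + r) * 2 ^ r) :=
          mul_le_mul h6 h9 (by positivity) (by positivity)
      _ = 2 ^ (16 * (K + 1) * r ^ 2 + 3 * r) := by
          rw [← pow_add, ← pow_add]
          congr 1
          ring
      _ ≤ (c / 2 * 2 ^ r) * 2 ^ (16 * (K + 1) * r ^ 2 + 3 * r) :=
          le_mul_of_one_le_left (by positivity) h8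
      _ = c / 2 * 2 ^ (16 * (K + 1) * r ^ 2 + 4 * r) := by
          rw [mul_assoc, ← pow_add]
          congr 2
          ring
      _ ≤ c / 2 * 2 ^ (r ^ 3) := by
          apply mul_le_mul_of_nonneg_left _ (by positivity)
          exact pow_le_pow_right₀ (by norm_num) hlin
  · have h4 := hc1 (c / ε) hcε.le (by
      rw [hB]
      have : 0 ≤ 1000 * (K : ℝ) ^ 2 := by positivity
      linarith) 0 (by norm_num)
    rw [pow_zero, mul_one, div_le_iff₀ hε] at h4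
    have h5 : r ^ 3 + r ≤ r ^ 4 := by
      have h6 : r ≤ r ^ 3 := Nat.le_self_pow (by norm_num) r
      have h7 : 2 ≤ r := by omega
      calc r ^ 3 + r ≤ 2 * r ^ 3 := by omega
        _ ≤ r * r ^ 3 := Nat.mul_le_mul_right _ h7
        _ = r ^ 4 := by ring
    calc c * 2 ^ (r ^ 3) ≤ (2 ^ r * ε) * 2 ^ (r ^ 3) := mul_le_mul_of_nonneg_right h4 (by positivity)
      _ = ε * 2 ^ (r ^ 3 + r) := by rw [pow_add]; ring
      _ ≤ ε * 2 ^ (r ^ 4) := by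
          apply mul_le_mul_of_nonneg_left _ hε.le
          exact pow_le_pow_right₀ (by norm_num) h5

end Pool.Agent.V1194.AGP
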