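import Mathlib

/-! A sequence of units modulo `L` of length larger than `m log φ(L)` has a nonempty subsequence with product one, if
`m` is a multiple of the exponent of the group of units. -/

set_option autoImplicit false

namespace Pool.Agent.V1194.AGP

open Finset

/-- greedy choice of values -/
theorem greedy {C ι R : Type*} [DecidableEq C] [DecidableEq ι] [DecidableEq R] (Rs : Finset R) (m : ℕ)
    (hm : 0 < m) (hR : Rs.card ≤ m) (V : ι → C → R) (hV : ∀ i χ, V i χ ∈ Rs) (r0 : R) (hr0 : r0 ∈ Rs)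
    (s : Finset ι) : ∀ X : Finset C, (X.card : ℝ) * (1 - 1 / (m : ℝ)) ^ s.card < 1 →
      ∃ a : ι → R, (∀ i, a i ∈ Rs) ∧ ∀ χ ∈ X, ∃ i ∈ s, V i χ = a i := by
  have hm' : (1 : ℝ) ≤ m := by exact_mod_cast hm
  have hm0 : (0 : ℝ) < m := by linarith
  have h01 : 0 ≤ 1 - 1 / (m : ℝ) := by
    rw [sub_nonneg, div_le_one hm0]
    exact hm'
  induction s using Finset.induction_on with
  | empty =>
    intro X hX
    simp only [card_empty, pow_zero, mul_one] at hX
    have hX0 : X.card = 0 := by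
      have : X.card < 1 := by exact_mod_cast hX
      omega
    rw [card_eq_zero] at hX0
    subst hX0
    exact ⟨fun _ => r0, fun _ => hr0, fun χ hχ => absurd hχ (notMem_empty _)⟩
  | insert i s hi ih =>
    intro X hX
    rw [card_insert_of_notMem hi, pow_succ] at hX
    have h1 : ∑ r ∈ Rs, (X.card : ℝ) / m ≤ ∑ r ∈ Rs, ((X.filter (fun χ => V i χ = r)).card : ℝ) := by
      have h2 : (X.card : ℝ) = ∑ r ∈ Rs, ((X.filter (fun χ => V i χ = r)).card : ℝ) := by
        rw [← Nat.cast_sum]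
        congr 1
        exact card_eq_sum_card_fiberwise (fun χ _ => hV i χ)
      rw [← h2, sum_const, nsmul_eq_mul]
      rw [mul_div_assoc', div_le_iff₀ hm0]
      have h3 : (Rs.card : ℝ) ≤ m := by exact_mod_cast hR
      have h4 : (0 : ℝ) ≤ X.card := Nat.cast_nonneg _
      nlinarith
    obtain ⟨r, hr, hrc⟩ := exists_le_of_sum_le ⟨r0, hr0⟩ h1
    have h5 : (X.filter (fun χ => V i χ = r)).card + (X.filter (fun χ => ¬ V i χ = r)).card = X.card :=
      card_filter_add_card_filter_not _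
    have h6 : ((X.filter (fun χ => V i χ = r)).card : ℝ) + ((X.filter (fun χ => ¬ V i χ = r)).card : ℝ) =
        X.card := by exact_mod_cast h5
    have h7 : ((X.filter (fun χ => ¬ V i χ = r)).card : ℝ) ≤ X.card * (1 - 1 / (m : ℝ)) := by
      have h8 : (X.card : ℝ) * (1 - 1 / (m : ℝ)) = X.card - X.card / m := by ring
      rw [h8]
      linarith
    have h9 : ((X.filter (fun χ => ¬ V i χ = r)).card : ℝ) * (1 - 1 / (m : ℝ)) ^ s.card < 1 := by
      refine lt_of_le_of_lt ?_ hX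
      calc ((X.filter (fun χ => ¬ V i χ = r)).card : ℝ) * (1 - 1 / (m : ℝ)) ^ s.card
          ≤ (X.card * (1 - 1 / (m : ℝ))) * (1 - 1 / (m : ℝ)) ^ s.card :=
            mul_le_mul_of_nonneg_right h7 (pow_nonneg h01 _)
        _ = _ := by ring
    obtain ⟨a, ha, hsa⟩ := ih _ h9
    refine ⟨Function.update a i r, ?_, ?_⟩
    · intro j
      by_cases hj : j = i
      · subst hj
        rw [Function.update_self]
        exact hr
      · rw [Function.update_of_ne hj]
        exact ha j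
    · intro χ hχ
      by_cases h : V i χ = r
      · refine ⟨i, mem_insert_self _ _, ?_⟩
        rw [Function.update_self]
        exact h
      · obtain ⟨j, hj, hj2⟩ := hsa χ (mem_filter.2 ⟨hχ, h⟩)
        refine ⟨j, mem_insert_of_mem hj, ?_⟩
        have hne : j ≠ i := fun h => hi (h ▸ hj)
        rw [Function.update_of_ne hne]
        exact hj2

theorem dav (L : ℕ) [NeZero L] (m : ℕ) (hm : 0 < m) (hexp : ∀ u : (ZMod L)ˣ, u ^ m = 1)
    {ι : Type*} [DecidableEq ι] (s : Finset ι) (f : ι → (ZMod L)ˣ)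
    (hs : (L.totient : ℝ) * (1 - 1 / (m : ℝ)) ^ s.card < 1) :
    ∃ T ⊆ s, T.Nonempty ∧ ∏ i ∈ T, f i = 1 := by
  classical
  by_contra hcon
  push Not at hcon
  set Rs : Finset ℂ := Polynomial.nthRootsFinset m (1 : ℂ) with hRs
  have hmem : ∀ x : ℂ, x ∈ Rs ↔ x ^ m = 1 := fun x => Polynomial.mem_nthRootsFinset hm (1 : ℂ)
  have hcard : Rs.card ≤ m := by
    rw [hRs, Polynomial.nthRootsFinset]
    exact (Multiset.toFinset_card_le _).trans (Polynomial.card_nthRoots m 1)
  have hV : ∀ (i : ι) (χ : DirichletCharacter ℂ L), χ ((f i : (ZMod L)ˣ) : ZMod L) ∈ Rs := by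
    intro i χ
    rw [hmem, ← map_pow, ← Units.val_pow_eq_pow_val, hexp]
    simp
  have hX : (((Finset.univ : Finset (DirichletCharacter ℂ L)).card : ℕ) : ℝ) * (1 - 1 / (m : ℝ)) ^ s.card < 1 := by
    have h1 : (Finset.univ : Finset (DirichletCharacter ℂ L)).card = L.totient := by
      rw [Finset.card_univ, ← Nat.card_eq_fintype_card]
      exact DirichletCharacter.card_eq_totient_of_hasEnoughRootsOfUnity ℂ L
    rw [h1]
    exact hs
  obtain ⟨a, ha, hsa⟩ := greedy Rs m hm hcard (fun i (χ : DirichletCharacter ℂ L) => χ ((f i : (ZMod L)ˣ) : ZMod L)) hV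
    1 ((hmem 1).2 (one_pow m)) s Finset.univ hX
  have ha0 : ∀ i, a i ≠ 0 := by
    intro i h
    have h2 := (hmem _).1 (ha i)
    rw [h, zero_pow hm.ne'] at h2
    exact zero_ne_one h2
  have h0 : ∑ χ : DirichletCharacter ℂ L, ∏ i ∈ s, (-(χ ((f i : (ZMod L)ˣ) : ZMod L)) + a i) = 0 := by
    apply sum_eq_zero
    intro χ _
    obtain ⟨i, hi, hi2⟩ := hsa χ (mem_univ _)
    apply prod_eq_zero hi
    rw [hi2]
    ring
  have h1 : ∀ χ : DirichletCharacter ℂ L, ∏ i ∈ s, (-(χ ((f i : (ZMod L)ˣ) : ZMod L)) + a i) =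
      ∑ T ∈ s.powerset, ((-1) ^ T.card * ∏ i ∈ s \ T, a i) * χ (((∏ i ∈ T, f i : (ZMod L)ˣ)) : ZMod L) := by
    intro χ
    rw [prod_add]
    apply sum_congr rfl
    intro T hT
    have h2 : ∏ i ∈ T, -(χ ((f i : (ZMod L)ˣ) : ZMod L)) = (-1) ^ T.card * χ (((∏ i ∈ T, f i : (ZMod L)ˣ)) : ZMod L) := by
      rw [Units.coe_prod, map_prod, prod_neg]
    rw [h2]
    ring
  simp only [h1] at h0
  rw [sum_comm] at h0
  have h2 : ∀ T ∈ s.powerset, ∑ χ : DirichletCharacter ℂ L, ((-1) ^ T.card * ∏ i ∈ s \ T, a i) *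
      χ (((∏ i ∈ T, f i : (ZMod L)ˣ)) : ZMod L) = if T = ∅ then (∏ i ∈ s, a i) * L.totient else 0 := by
    intro T hT
    rw [← mul_sum, DirichletCharacter.sum_characters_eq]
    by_cases hT0 : T = ∅
    · subst hT0
      simp
    · have h3 := hcon T (mem_powerset.1 hT) (nonempty_iff_ne_empty.2 hT0)
      rw [if_neg hT0, if_neg]
      · simp
      · intro h4
        exact h3 (Units.val_eq_one.1 h4)
  rw [sum_congr rfl h2, sum_ite_eq' s.powerset ∅] at h0
  rw [if_pos (empty_mem_powerset s)] at h0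
  have h5 : (∏ i ∈ s, a i) ≠ 0 := prod_ne_zero_iff.2 fun i _ => ha0 i
  have h6 : ((L.totient : ℕ) : ℂ) ≠ 0 := by
    have : L.totient ≠ 0 := (Nat.totient_pos.2 (NeZero.pos L)).ne'
    exact_mod_cast this
  exact mul_ne_zero h5 h6 h0

end Pool.Agent.V1194.AGP
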