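import Mathlib

/-! If for each `d` of a finite set the sum of `1 / p` over a set `G d` of integers `p ≤ X` congruent to one modulo `d`
is at least `s / d`, then there is one `k` such that `d k + 1` belongs to `G d` for many `d`. -/

set_option autoImplicit false

namespace Pool.Agent.V1194.AGP

open Finset

theorem pig (D : Finset ℕ) (X : ℕ) (hX : 1 ≤ X) (G : ℕ → Finset ℕ) (s : ℝ) (hD : ∀ d ∈ D, 0 < d)
    (hG : ∀ d ∈ D, ∀ p ∈ G d, 1 < p ∧ p ≤ X ∧ p ≡ 1 [MOD d])
    (hs : ∀ d ∈ D, s / d ≤ ∑ p ∈ G d, (1 : ℝ) / p) :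
    ∃ k : ℕ, 0 < k ∧ k ≤ X ∧
      s * D.card ≤ (1 + Real.log X) * ((D.filter (fun d => d * k + 1 ∈ G d)).card : ℝ) := by
  have hlog : 0 ≤ Real.log X := Real.log_nonneg (by exact_mod_cast hX)
  -- the sum over `d`
  have h1 : s * D.card ≤ ∑ d ∈ D, ∑ p ∈ G d, (d : ℝ) / p := by
    have h2 : s * D.card = ∑ d ∈ D, s := by rw [sum_const, nsmul_eq_mul]; ring
    rw [h2]
    apply sum_le_sum
    intro d hd
    have h3 := hs d hd
    have hd0 : (0 : ℝ) < d := by exact_mod_cast hD d hd
    rw [div_le_iff₀ hd0] at h3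
    refine h3.trans (le_of_eq ?_)
    rw [sum_mul]
    apply sum_congr rfl
    intro p _
    ring
  have h4 : ∀ d ∈ D, ∑ p ∈ G d, (d : ℝ) / p ≤ ∑ k ∈ Icc 1 X, if d * k + 1 ∈ G d then (1 : ℝ) / k else 0 := by
    intro d hd
    have hd0 := hD d hd
    rw [← sum_filter]
    have h5 : ∀ p ∈ G d, ∃ k, p = d * k + 1 ∧ 1 ≤ k ∧ k ≤ X := by
      intro p hp
      obtain ⟨hp1, hp2, hp3⟩ := hG d hd p hp
      have h6 : d ∣ p - 1 := (Nat.modEq_iff_dvd' hp1.le).1 hp3.symm
      obtain ⟨k, hk⟩ := h6
      refine ⟨k, by omega, ?_, ?_⟩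
      · rcases Nat.eq_zero_or_pos k with h | h
        · subst h
          omega
        · exact h
      · have : k ≤ d * k := Nat.le_mul_of_pos_left k hd0
        omega
    calc ∑ p ∈ G d, (d : ℝ) / p ≤ ∑ p ∈ G d, (1 : ℝ) / (((p - 1) / d : ℕ) : ℝ) := by
          apply sum_le_sum
          intro p hp
          obtain ⟨k, hk, hk1, -⟩ := h5 p hp
          have h7 : (p - 1) / d = k := by
            rw [hk, Nat.add_sub_cancel]
            exact Nat.mul_div_cancel_left k hd0
          rw [h7]
          have hk0 : (0 : ℝ) < k := by exact_mod_cast hk1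
          have hdr : (0 : ℝ) < d := by exact_mod_cast hd0
          rw [hk]
          push_cast
          rw [div_le_div_iff₀ (by positivity) hk0]
          linarith
      _ ≤ ∑ k ∈ (Icc 1 X).filter (fun k => d * k + 1 ∈ G d), (1 : ℝ) / k := by
          rw [← sum_image (s := G d) (g := fun p => (p - 1) / d) (f := fun k : ℕ => (1 : ℝ) / (k : ℝ))]
          · apply sum_le_sum_of_subset_of_nonneg
            · intro k hk
              rw [mem_image] at hk
              obtain ⟨p, hp, hpk⟩ := hk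
              obtain ⟨k', hk', hk1, hk2⟩ := h5 p hp
              have h7 : (p - 1) / d = k' := by
                rw [hk', Nat.add_sub_cancel]
                exact Nat.mul_div_cancel_left k' hd0
              rw [h7] at hpk
              subst hpk
              rw [mem_filter, mem_Icc]
              exact ⟨⟨hk1, hk2⟩, hk' ▸ hp⟩
            · intro k _ _
              positivity
          · intro p hp p' hp' hpp
            obtain ⟨k, hk, -, -⟩ := h5 p hp
            obtain ⟨k', hk', -, -⟩ := h5 p' hp'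
            simp only at hpp
            rw [hk, hk', Nat.add_sub_cancel, Nat.add_sub_cancel, Nat.mul_div_cancel_left _ hd0,
              Nat.mul_div_cancel_left _ hd0] at hpp
            rw [hk, hk', hpp]
  have h8 : s * D.card ≤ ∑ k ∈ Icc 1 X, (1 : ℝ) / k * ((D.filter (fun d => d * k + 1 ∈ G d)).card : ℝ) := by
    refine h1.trans ((sum_le_sum h4).trans (le_of_eq ?_))
    rw [sum_comm]
    apply sum_congr rfl
    intro k _
    rw [← sum_filter, sum_const, nsmul_eq_mul]
    ring
  by_contra hcon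
  push Not at hcon
  have h9 : ∑ k ∈ Icc 1 X, (1 : ℝ) / k ≤ 1 + Real.log X := by
    have h10 := harmonic_le_one_add_log X
    have h11 : ((harmonic X : ℚ) : ℝ) = ∑ k ∈ Icc 1 X, (1 : ℝ) / k := by
      rw [harmonic_eq_sum_Icc]
      push_cast
      apply sum_congr rfl
      intro k _
      rw [one_div]
    rw [← h11]
    exact h10
  have h12 : (0 : ℝ) < 1 + Real.log X := by linarith
  have h13 : ∑ k ∈ Icc 1 X, (1 : ℝ) / k * ((D.filter (fun d => d * k + 1 ∈ G d)).card : ℝ) <
      ∑ k ∈ Icc 1 X, (1 : ℝ) / k * (s * D.card / (1 + Real.log X)) := by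
    apply sum_lt_sum_of_nonempty ⟨1, mem_Icc.2 ⟨le_rfl, hX⟩⟩
    intro k hk
    rw [mem_Icc] at hk
    have hk0 : (0 : ℝ) < k := by exact_mod_cast hk.1
    apply mul_lt_mul_of_pos_left _ (by positivity)
    rw [lt_div_iff₀ h12]
    have := hcon k hk.1 hk.2
    linarith
  rw [← sum_mul] at h13
  have h14 : 0 ≤ s * D.card := by
    have h15 := hcon 1 one_pos hX
    refine le_of_lt (lt_of_le_of_lt ?_ h15)
    positivity
  have h16 : (∑ k ∈ Icc 1 X, (1 : ℝ) / k) * (s * D.card / (1 + Real.log X)) ≤ s * D.card := by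
    calc (∑ k ∈ Icc 1 X, (1 : ℝ) / k) * (s * D.card / (1 + Real.log X)) ≤
        (1 + Real.log X) * (s * D.card / (1 + Real.log X)) :=
          mul_le_mul_of_nonneg_right h9 (by positivity)
      _ = s * D.card := by field_simp
  linarith

end Pool.Agent.V1194.AGP
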