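import Mathlib
import Pool.Agent.V1194.AGP.Pig

/-! First stage of the method of Alford, Granville and Pomerance: many primes `q` for which `q - 1` divides one and
the same integer `κ`, from a lower bound of the type of Linnik for primes in progressions (this part is due to
Prachar). -/

set_option autoImplicit false

namespace Pool.Agent.V1194.AGP

open Finset

/-- the lower bound of the type of Linnik, with an exceptional modulus `q₁` -/
def PageProp (K : ℕ) (c : ℝ) (z0 : ℕ) : Prop :=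
  ∀ z : ℕ, z0 ≤ z → ∃ q₁ : ℕ, 2 ≤ q₁ ∧ ∀ q b : ℕ, 0 < q → q ^ 16 ≤ z → ¬ q₁ ∣ q → b.Coprime q →
    c / (q.totient : ℝ) ≤ ∑ p ∈ (Ioc z (z ^ K)).filter (fun p => p.Prime ∧ p ≡ b [MOD q]), (1 : ℝ) / p

theorem primes_set (r : ℕ) : ∃ P : Finset ℕ, P.card = r ∧ (∀ p ∈ P, p.Prime) ∧ ∏ p ∈ P, p ≤ 2 ^ (r * r) := by
  have h : ∀ i : ℕ, ∃ p : ℕ, p.Prime ∧ 2 ^ i < p ∧ p ≤ 2 ^ (i + 1) := by
    intro i
    obtain ⟨p, hp, h1, h2⟩ := Nat.exists_prime_lt_and_le_two_mul (2 ^ i) (by positivity)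
    exact ⟨p, hp, h1, by rw [pow_succ]; omega⟩
  choose f hf using h
  have hinj : Function.Injective f := by
    apply StrictMono.injective
    apply strictMono_nat_of_lt_succ
    intro n
    exact lt_of_le_of_lt (hf n).2.2 (hf (n + 1)).2.1
  refine ⟨(range r).image f, ?_, ?_, ?_⟩
  · rw [card_image_of_injective _ hinj, card_range]
  · intro p hp
    rw [mem_image] at hp
    obtain ⟨i, -, rfl⟩ := hp
    exact (hf i).1
  · rw [prod_image (fun a _ b _ h => hinj h)]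
    calc ∏ i ∈ range r, f i ≤ ∏ _i ∈ range r, 2 ^ r := by
          apply prod_le_prod' 
          intro i hi
          rw [mem_range] at hi
          exact (hf i).2.2.trans (Nat.pow_le_pow_right (by norm_num) (by omega))
      _ = 2 ^ (r * r) := by rw [prod_const, card_range, ← pow_mul]

/-- products of different sets of primes are different -/
theorem prod_inj {S T : Finset ℕ} (hS : ∀ p ∈ S, p.Prime) (hT : ∀ p ∈ T, p.Prime)
    (h : ∏ p ∈ S, p = ∏ p ∈ T, p) : S = T := by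
  rw [← Nat.primeFactors_prod hS, ← Nat.primeFactors_prod hT, h]

theorem stage1 {K : ℕ} {c : ℝ} {z0 : ℕ} (hc : 0 < c) (h : PageProp K c z0) (r : ℕ)
    (hr : z0 ≤ 2 ^ r) :
    ∃ (z κ : ℕ) (Q : Finset ℕ), 2 ^ (16 * r) ≤ z ∧ z ≤ 2 ^ (16 * (r * r)) ∧ 0 < κ ∧ κ ≤ z ^ (K + 1) ∧
      (∀ q ∈ Q, q.Prime ∧ z < q ∧ q ≤ z ^ K ∧ q - 1 ∣ κ) ∧
      c * 2 ^ (r - 1) ≤ (1 + Real.log ((z ^ K : ℕ) : ℝ)) * Q.card ∧ Q.card ≤ 2 ^ r := by
  classical
  obtain ⟨P, hPc, hPp, hPprod⟩ := primes_set r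
  obtain ⟨M, hM⟩ : ∃ M : ℕ, M = ∏ p ∈ P, p := ⟨_, rfl⟩
  have hM2 : 2 ^ r ≤ M := by
    rw [hM, ← hPc, ← prod_const]
    exact prod_le_prod' fun p hp => (hPp p hp).two_le
  have hM0 : 0 < M := lt_of_lt_of_le (by positivity) hM2
  have hMz : M ≤ M ^ 16 := Nat.le_self_pow (by norm_num) M
  obtain ⟨q₁, hq₁, hpage⟩ := h (M ^ 16) (hr.trans (hM2.trans hMz))
  have hz1 : 1 ≤ (M ^ 16) ^ K := Nat.one_le_iff_ne_zero.2 (by positivity)
  set P' := P.erase q₁.minFac with hP'
  have hP'p : ∀ p ∈ P', p.Prime := fun p hp => hPp p (mem_of_mem_erase hp)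
  have hP'c : r - 1 ≤ P'.card := by
    rw [hP', ← hPc]
    exact pred_card_le_card_erase
  have hP'c2 : P'.card ≤ r := by
    rw [← hPc]
    exact card_le_card (erase_subset _ _)
  set D : Finset ℕ := P'.powerset.image (fun S => ∏ p ∈ S, p) with hD
  have hDc : D.card = 2 ^ P'.card := by
    rw [hD, card_image_of_injOn, card_powerset]
    intro S hS T hT hST
    rw [mem_coe, mem_powerset] at hS hT
    exact prod_inj (fun p hp => hP'p p (hS hp)) (fun p hp => hP'p p (hT hp)) hST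
  have hDM : ∀ d ∈ D, 0 < d ∧ d ∣ M ∧ ¬ q₁ ∣ d := by
    intro d hd
    rw [hD, mem_image] at hd
    obtain ⟨S, hS, rfl⟩ := hd
    rw [mem_powerset] at hS
    refine ⟨prod_pos fun p hp => (hP'p p (hS hp)).pos, ?_, ?_⟩
    · rw [hM]
      exact prod_dvd_prod_of_subset _ _ _ (hS.trans (erase_subset _ _))
    · intro hdvd
      have hmf : q₁.minFac.Prime := Nat.minFac_prime (by omega)
      have h1 : q₁.minFac ∣ ∏ p ∈ S, p := (Nat.minFac_dvd q₁).trans hdvd
      obtain ⟨p, hp, hpd⟩ := (hmf.prime.dvd_finsetProd_iff _).1 h1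
      have h2 : q₁.minFac = p := (Nat.prime_dvd_prime_iff_eq hmf (hP'p p (hS hp))).1 hpd
      have h3 := hS hp
      rw [hP', ← h2] at h3
      exact notMem_erase _ _ h3
  have hz1' : 1 ≤ (M ^ 16) := Nat.one_le_iff_ne_zero.2 (by positivity)
  obtain ⟨k, hk0, hkX, hk⟩ := pig D ((M ^ 16) ^ K) hz1
    (fun d => (Ioc (M ^ 16) ((M ^ 16) ^ K)).filter (fun p => p.Prime ∧ p ≡ 1 [MOD d])) c
    (fun d hd => (hDM d hd).1)
    (by
      intro d hd p hp
      rw [mem_filter, mem_Ioc] at hp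
      exact ⟨lt_of_le_of_lt hz1' hp.1.1, hp.1.2, hp.2.2⟩)
    (by
      intro d hd
      obtain ⟨h1, h2, h3⟩ := hDM d hd
      have h4 := hpage d 1 h1 (Nat.pow_le_pow_left (Nat.le_of_dvd hM0 h2) 16) h3 (Nat.coprime_one_left d)
      refine le_trans ?_ h4
      have h5 : (0 : ℝ) < d.totient := by exact_mod_cast Nat.totient_pos.2 h1
      have h6 : (d.totient : ℝ) ≤ d := by exact_mod_cast Nat.totient_le d
      exact div_le_div_of_nonneg_left hc.le h5 h6)
  set D' := D.filter (fun d => d * k + 1 ∈ (Ioc (M ^ 16) ((M ^ 16) ^ K)).filter (fun p => p.Prime ∧ p ≡ 1 [MOD d]))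
    with hD'
  have hinj : Function.Injective (fun d : ℕ => d * k + 1) := by
    intro a b hab
    simp only [add_left_inj] at hab
    exact Nat.eq_of_mul_eq_mul_right hk0 hab
  refine ⟨M ^ 16, k * M, D'.image (fun d => d * k + 1), ?_, ?_, by positivity, ?_, ?_, ?_, ?_⟩
  · rw [mul_comm 16 r, pow_mul]
    exact Nat.pow_le_pow_left hM2 16
  · rw [mul_comm 16 (r * r), pow_mul]
    exact Nat.pow_le_pow_left (hM ▸ hPprod) 16
  · rw [pow_succ]
    exact Nat.mul_le_mul hkX hMz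
  · intro q hq
    rw [mem_image] at hq
    obtain ⟨d, hd, rfl⟩ := hq
    rw [hD', mem_filter, mem_filter, mem_Ioc] at hd
    refine ⟨hd.2.2.1, hd.2.1.1, hd.2.1.2, ?_⟩
    rw [Nat.add_sub_cancel, mul_comm k M]
    exact Nat.mul_dvd_mul_right (hDM d hd.1).2.1 k
  · rw [card_image_of_injective _ hinj]
    refine le_trans ?_ hk
    apply mul_le_mul_of_nonneg_left _ hc.le
    rw [hDc]
    push_cast
    exact pow_le_pow_right₀ (by norm_num) hP'c
  · rw [card_image_of_injective _ hinj]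
    refine (card_filter_le _ _).trans ?_
    rw [hDc]
    exact Nat.pow_le_pow_right (by norm_num) hP'c2

end Pool.Agent.V1194.AGP
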