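import Mathlib
import Pool.Agent.V1194.AGP.Stage1
import Pool.Agent.V1194.AGP.Dav

/-! Second stage of the method of Alford, Granville and Pomerance: from a set `Q` of primes `q` with `q - 1 ∣ κ` one
obtains an integer `k`, a product `L` of elements of `Q` and many primes `p = d k + 1` with `d ∣ L`. -/

set_option autoImplicit false

namespace Pool.Agent.V1194.AGP

open Finset

theorem sum_biUnion_le' {α β : Type*} [DecidableEq α] [DecidableEq β] (S : Finset α) (T : α → Finset β) (f : β → ℝ)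
    (hf : ∀ b, 0 ≤ f b) : ∑ b ∈ S.biUnion T, f b ≤ ∑ a ∈ S, ∑ b ∈ T a, f b := by
  induction S using Finset.induction_on with
  | empty => simp
  | insert a S ha ih =>
    rw [biUnion_insert, sum_insert ha]
    have h1 : ∑ b ∈ T a ∪ S.biUnion T, f b + ∑ b ∈ T a ∩ S.biUnion T, f b =
        ∑ b ∈ T a, f b + ∑ b ∈ S.biUnion T, f b := sum_union_inter
    have h2 : 0 ≤ ∑ b ∈ T a ∩ S.biUnion T, f b := sum_nonneg fun b _ => hf b
    linarith

theorem ap_sum (X m : ℕ) (hm : 0 < m) (A : Finset ℕ)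
    (hA : ∀ p ∈ A, 1 < p ∧ p ≤ X ∧ m ∣ p - 1) :
    ∑ p ∈ A, (1 : ℝ) / p ≤ (1 + Real.log X) / m := by
  have hmr : (0 : ℝ) < m := by exact_mod_cast hm
  have h5 : ∀ p ∈ A, ∃ k, p = m * k + 1 ∧ 1 ≤ k ∧ k ≤ X := by
    intro p hp
    obtain ⟨hp1, hp2, k, hk⟩ := hA p hp
    refine ⟨k, by omega, ?_, ?_⟩
    · rcases Nat.eq_zero_or_pos k with h | h
      · subst h
        omega
      · exact h
    · have : k ≤ m * k := Nat.le_mul_of_pos_left k hm
      omega
  have h7 : ∀ p ∈ A, ∀ k, p = m * k + 1 → (p - 1) / m = k := by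
    intro p _ k hk
    rw [hk, Nat.add_sub_cancel]
    exact Nat.mul_div_cancel_left k hm
  have h9 : ∑ k ∈ Icc 1 X, (1 : ℝ) / k ≤ 1 + Real.log X := by
    have h10 := harmonic_le_one_add_log X
    have h11 : ((harmonic X : ℚ) : ℝ) = ∑ k ∈ Icc 1 X, (1 : ℝ) / k := by
      rw [harmonic_eq_sum_Icc]
      push_cast
      apply sum_congr rfl
      intro k _
      rw [one_div]
    rw [← h11]
    exact h10
  rw [le_div_iff₀ hmr, sum_mul]
  refine le_trans ?_ h9
  calc ∑ p ∈ A, (1 : ℝ) / p * m ≤ ∑ p ∈ A, (1 : ℝ) / (((p - 1) / m : ℕ) : ℝ) := by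
        apply sum_le_sum
        intro p hp
        obtain ⟨k, hk, hk1, -⟩ := h5 p hp
        rw [h7 p hp k hk]
        have hk0 : (0 : ℝ) < k := by exact_mod_cast hk1
        rw [hk]
        push_cast
        rw [div_mul_eq_mul_div, one_mul, div_le_div_iff₀ (by positivity) hk0]
        linarith
    _ ≤ ∑ k ∈ Icc 1 X, (1 : ℝ) / k := by
        rw [← sum_image (s := A) (g := fun p => (p - 1) / m) (f := fun k : ℕ => (1 : ℝ) / (k : ℝ))]
        · apply sum_le_sum_of_subset_of_nonneg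
          · intro k hk
            rw [mem_image] at hk
            obtain ⟨p, hp, hpk⟩ := hk
            obtain ⟨k', hk', hk1, hk2⟩ := h5 p hp
            rw [h7 p hp k' hk'] at hpk
            subst hpk
            exact mem_Icc.2 ⟨hk1, hk2⟩
          · intro k _ _
            positivity
        · intro p hp p' hp' hpp
          obtain ⟨k, hk, -, -⟩ := h5 p hp
          obtain ⟨k', hk', -, -⟩ := h5 p' hp'
          simp only at hpp
          rw [h7 p hp k hk, h7 p' hp' k' hk'] at hpp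
          rw [hk, hk', hpp]

theorem two_pow_le_choose (t n : ℕ) (ht : 1 ≤ t) (hn : 2 * t ≤ n) : 2 ^ t ≤ n.choose t := by
  have h1 := Nat.four_pow_le_two_mul_self_mul_centralBinom t ht
  have h2 : t.centralBinom ≤ n.choose t := by
    rw [Nat.centralBinom_eq_two_mul_choose]
    exact Nat.choose_le_choose t hn
  refine le_trans ?_ h2
  have h3 : 2 * t ≤ 2 ^ t := by
    clear hn h1 h2
    induction t with
    | zero => simp
    | succ t ih =>
      rcases Nat.eq_zero_or_pos t with h | h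
      · subst h
        simp
      · have := ih h
        rw [pow_succ]
        omega
  have h4 : (4 : ℕ) ^ t = 2 ^ t * 2 ^ t := by
    rw [← mul_pow]
    norm_num
  rw [h4] at h1
  have h5 : 2 ^ t * 2 ^ t ≤ 2 ^ t * t.centralBinom := h1.trans (Nat.mul_le_mul_right _ h3)
  exact Nat.le_of_mul_le_mul_left h5 (by positivity)

theorem stage2 {K : ℕ} {c : ℝ} {z0 : ℕ} (hK : 1 ≤ K) (hc : 0 < c) (h : PageProp K c z0)
    {z κ t : ℕ} {Q : Finset ℕ} (hz : z0 ≤ z) (hz1 : 1 ≤ z)
    (hQ : ∀ q ∈ Q, q.Prime ∧ z < q ∧ q ≤ z ^ K ∧ q - 1 ∣ κ) (ht : 1 ≤ t) (htQ : 2 * t + 1 ≤ Q.card)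
    (h2 : 2 * (t : ℝ) * (1 + Real.log (((z ^ (16 * K * t)) ^ K : ℕ) : ℝ)) ≤ c * z) :
    ∃ (k L : ℕ) (P : Finset ℕ), 0 < k ∧ 0 < L ∧ L ≤ (z ^ K) ^ Q.card ∧ k.Coprime L ∧
      (∀ a : ℕ, a.Coprime L → a ^ κ ≡ 1 [MOD L]) ∧
      (∀ p ∈ P, p.Prime ∧ z ^ (16 * K * t) < p ∧ p.Coprime L ∧ p - 1 ∣ k * L ∧ k ∣ p - 1) ∧
      c / 2 * 2 ^ t ≤ (1 + Real.log (((z ^ (16 * K * t)) ^ K : ℕ) : ℝ)) * P.card := by
  classical
  obtain ⟨Z, hZ⟩ : ∃ Z : ℕ, Z = z ^ (16 * K * t) := ⟨_, rfl⟩
  rw [← hZ] at h2 ⊢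
  have hKt : 1 ≤ K * t := Nat.one_le_iff_ne_zero.2 (by positivity)
  have hzZ : z ≤ Z := by
    rw [hZ]
    exact Nat.le_self_pow (by positivity) z
  have hzKZ : z ^ K ≤ Z := by
    rw [hZ]
    apply Nat.pow_le_pow_right hz1
    nlinarith
  have hZ1 : 1 ≤ Z := hz1.trans hzZ
  obtain ⟨q₁, hq₁, hpage⟩ := h Z (hz.trans hzZ)
  obtain ⟨X, hX⟩ : ∃ X : ℕ, X = Z ^ K := ⟨_, rfl⟩
  rw [← hX] at h2 ⊢
  have hX1 : 1 ≤ X := by
    rw [hX]
    exact Nat.one_le_iff_ne_zero.2 (by positivity)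
  have hlogX : 0 ≤ Real.log X := Real.log_nonneg (by exact_mod_cast hX1)
  set Q' := Q.erase q₁.minFac with hQ'
  have hQ'Q : Q' ⊆ Q := erase_subset _ _
  have hQ'c : 2 * t ≤ Q'.card := by
    have h3 : Q.card - 1 ≤ Q'.card := pred_card_le_card_erase
    omega
  set D : Finset ℕ := (powersetCard t Q').image (fun S => ∏ q ∈ S, q) with hD
  have hDc : 2 ^ t ≤ D.card := by
    rw [hD, card_image_of_injOn, card_powersetCard]
    · exact two_pow_le_choose t _ ht hQ'c
    · intro S hS T hT hST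
      rw [mem_coe, mem_powersetCard] at hS hT
      exact prod_inj (fun p hp => (hQ p (hQ'Q (hS.1 hp))).1) (fun p hp => (hQ p (hQ'Q (hT.1 hp))).1) hST
  -- the elements of `D`
  have hDM : ∀ d ∈ D, ∃ S : Finset ℕ, S ⊆ Q' ∧ S.card = t ∧ d = ∏ q ∈ S, q := by
    intro d hd
    rw [hD, mem_image] at hd
    obtain ⟨S, hS, rfl⟩ := hd
    rw [mem_powersetCard] at hS
    exact ⟨S, hS.1, hS.2, rfl⟩
  have hD0 : ∀ d ∈ D, 0 < d := by
    intro d hd
    obtain ⟨S, hS, -, rfl⟩ := hDM d hd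
    exact prod_pos fun p hp => (hQ p (hQ'Q (hS hp))).1.pos
  set G : ℕ → Finset ℕ := fun d => ((Ioc Z X).filter (fun p => p.Prime ∧ p ≡ 1 [MOD d])).filter
    (fun p => Nat.Coprime ((p - 1) / d) d) with hG
  obtain ⟨k, hk0, hkX, hk⟩ := pig D X hX1 G (c / 2) hD0
    (by
      intro d hd p hp
      rw [hG, mem_filter, mem_filter, mem_Ioc] at hp
      exact ⟨lt_of_le_of_lt hZ1 hp.1.1.1, hp.1.1.2, hp.1.2.2⟩)
    (by
      intro d hd
      obtain ⟨S, hS, hSt, hdS⟩ := hDM d hd
      have hd0 := hD0 d hd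
      have hdr : (0 : ℝ) < d := by exact_mod_cast hd0
      have hdle : d ≤ (z ^ K) ^ t := by
        rw [hdS, ← hSt, ← prod_const]
        exact prod_le_prod' fun p hp => (hQ p (hQ'Q (hS hp))).2.2.1
      have hd16 : d ^ 16 ≤ Z := by
        calc d ^ 16 ≤ ((z ^ K) ^ t) ^ 16 := Nat.pow_le_pow_left hdle 16
          _ = Z := by
            rw [hZ, ← pow_mul, ← pow_mul]
            congr 1
            ring
      have hq₁d : ¬ q₁ ∣ d := by
        intro hdvd
        have hmf : q₁.minFac.Prime := Nat.minFac_prime (by omega)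
        have h1 : q₁.minFac ∣ ∏ p ∈ S, p := hdS ▸ (Nat.minFac_dvd q₁).trans hdvd
        obtain ⟨p, hp, hpd⟩ := (hmf.prime.dvd_finsetProd_iff _).1 h1
        have h2 : q₁.minFac = p := (Nat.prime_dvd_prime_iff_eq hmf (hQ p (hQ'Q (hS hp))).1).1 hpd
        have h3 := hS hp
        rw [hQ', ← h2] at h3
        exact notMem_erase _ _ h3
      have h4 := hpage d 1 hd0 hd16 hq₁d (Nat.coprime_one_left d)
      rw [← hX] at h4
      have h5 : c / d ≤ ∑ p ∈ (Ioc Z X).filter (fun p => p.Prime ∧ p ≡ 1 [MOD d]), (1 : ℝ) / p := by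
        refine le_trans ?_ h4
        have h5 : (0 : ℝ) < d.totient := by exact_mod_cast Nat.totient_pos.2 hd0
        have h6 : (d.totient : ℝ) ≤ d := by exact_mod_cast Nat.totient_le d
        exact div_le_div_of_nonneg_left hc.le h5 h6
      -- the bad part
      set A := (Ioc Z X).filter (fun p => p.Prime ∧ p ≡ 1 [MOD d]) with hA
      have h6 : ∑ p ∈ A.filter (fun p => ¬ Nat.Coprime ((p - 1) / d) d), (1 : ℝ) / p ≤
          ∑ q ∈ S, (1 + Real.log X) / ((d * q : ℕ) : ℝ) := by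
        calc ∑ p ∈ A.filter (fun p => ¬ Nat.Coprime ((p - 1) / d) d), (1 : ℝ) / p
            ≤ ∑ p ∈ S.biUnion (fun q => A.filter (fun p => d * q ∣ p - 1)), (1 : ℝ) / p := by
              apply sum_le_sum_of_subset_of_nonneg
              · intro p hp
                rw [mem_filter] at hp
                obtain ⟨hpA, hpc⟩ := hp
                obtain ⟨q, hqp, hq1, hq2⟩ := Nat.Prime.not_coprime_iff_dvd.1 hpc
                rw [mem_biUnion]
                rw [hdS] at hq2
                obtain ⟨q', hq', hqq'⟩ := (hqp.prime.dvd_finsetProd_iff _).1 hq2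
                have h7 : q = q' := (Nat.prime_dvd_prime_iff_eq hqp (hQ q' (hQ'Q (hS hq'))).1).1 hqq'
                subst h7
                refine ⟨q, hq', mem_filter.2 ⟨hpA, ?_⟩⟩
                rw [hA, mem_filter, mem_Ioc] at hpA
                have h8 : d ∣ p - 1 := (Nat.modEq_iff_dvd' hpA.2.1.one_lt.le).1 hpA.2.2.symm
                exact Nat.mul_dvd_of_dvd_div h8 hq1
              · intro p _ _
                positivity
          _ ≤ ∑ q ∈ S, ∑ p ∈ A.filter (fun p => d * q ∣ p - 1), (1 : ℝ) / p :=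
              sum_biUnion_le' _ _ _ fun b => by positivity
          _ ≤ ∑ q ∈ S, (1 + Real.log X) / ((d * q : ℕ) : ℝ) := by
              apply sum_le_sum
              intro q hq
              apply ap_sum X (d * q) (Nat.mul_pos hd0 (hQ q (hQ'Q (hS hq))).1.pos)
              intro p hp
              rw [mem_filter, hA, mem_filter, mem_Ioc] at hp
              exact ⟨hp.1.2.1.one_lt, hp.1.1.2, hp.2⟩
      have h7 : ∑ q ∈ S, (1 + Real.log X) / ((d * q : ℕ) : ℝ) ≤ c / 2 / d := by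
        have hzr : (0 : ℝ) < z := by exact_mod_cast hz1
        calc ∑ q ∈ S, (1 + Real.log X) / ((d * q : ℕ) : ℝ) ≤ ∑ q ∈ S, (1 + Real.log X) / ((d : ℝ) * z) := by
              apply sum_le_sum
              intro q hq
              push_cast
              have h8 : (z : ℝ) ≤ q := by exact_mod_cast (hQ q (hQ'Q (hS hq))).2.1.le
              apply div_le_div_of_nonneg_left (by positivity) (by positivity)
              exact mul_le_mul_of_nonneg_left h8 hdr.le
          _ = t * ((1 + Real.log X) / ((d : ℝ) * z)) := by rw [sum_const, hSt, nsmul_eq_mul]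
          _ ≤ c / 2 / d := by
              rw [mul_div_assoc', div_div, div_le_div_iff₀ (by positivity) (by positivity)]
              nlinarith
      have h8 : ∑ p ∈ A.filter (fun p => Nat.Coprime ((p - 1) / d) d), (1 : ℝ) / p +
          ∑ p ∈ A.filter (fun p => ¬ Nat.Coprime ((p - 1) / d) d), (1 : ℝ) / p = ∑ p ∈ A, (1 : ℝ) / p :=
        sum_filter_add_sum_filter_not _ _ _
      have h9 : c / d = c / 2 / d + c / 2 / d := by ring
      change c / 2 / d ≤ ∑ p ∈ A.filter (fun p => Nat.Coprime ((p - 1) / d) d), (1 : ℝ) / p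
      linarith)
  set D' := D.filter (fun d => d * k + 1 ∈ G d) with hD'
  have hinj : Function.Injective (fun d : ℕ => d * k + 1) := by
    intro a b hab
    simp only [add_left_inj] at hab
    exact Nat.eq_of_mul_eq_mul_right hk0 hab
  set R := Q'.filter (fun q => ¬ q ∣ k) with hR
  have hRQ : ∀ q ∈ R, q ∈ Q ∧ ¬ q ∣ k := fun q hq => ⟨hQ'Q (mem_filter.1 hq).1, (mem_filter.1 hq).2⟩
  obtain ⟨L, hL⟩ : ∃ L : ℕ, L = ∏ q ∈ R, q := ⟨_, rfl⟩
  have hL0 : 0 < L := by
    rw [hL]
    exact prod_pos fun p hp => (hQ p (hRQ p hp).1).1.pos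
  have hzK1 : 1 ≤ z ^ K := Nat.one_le_iff_ne_zero.2 (by positivity)
  refine ⟨k, L, D'.image (fun d => d * k + 1), hk0, hL0, ?_, ?_, ?_, ?_, ?_⟩
  · calc L ≤ ∏ _q ∈ R, z ^ K := by
          rw [hL]
          exact prod_le_prod' fun p hp => (hQ p (hRQ p hp).1).2.2.1
      _ = (z ^ K) ^ R.card := by rw [prod_const]
      _ ≤ (z ^ K) ^ Q.card :=
          Nat.pow_le_pow_right hzK1 (card_le_card ((filter_subset _ _).trans hQ'Q))
  · rw [hL]
    apply Nat.Coprime.prod_right
    intro q hq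
    exact ((Nat.Prime.coprime_iff_not_dvd (hQ q (hRQ q hq).1).1).2 (hRQ q hq).2).symm
  · intro a ha
    rcases Nat.eq_zero_or_pos a with h0 | h0
    · subst h0
      rw [Nat.coprime_zero_left] at ha
      rw [ha]
      exact Nat.modEq_one
    · have hone : 1 ≤ a ^ κ := Nat.one_le_iff_ne_zero.2 (by positivity)
      apply Nat.ModEq.symm
      rw [Nat.modEq_iff_dvd' hone, hL]
      apply Finset.prod_primes_dvd
      · intro q hq
        exact (hQ q (hRQ q hq).1).1.prime
      · intro q hq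
        have hqp := (hQ q (hRQ q hq).1).1
        obtain ⟨e, he⟩ := (hQ q (hRQ q hq).1).2.2.2
        have hcop : a.Coprime q := by
          apply Nat.Coprime.coprime_dvd_right _ ha
          rw [hL]
          exact dvd_prod_of_mem _ hq
        have h3 : a ^ (q - 1) ≡ 1 [MOD q] := by
          have := Nat.ModEq.pow_totient hcop
          rwa [Nat.totient_prime hqp] at this
        have h4 : a ^ κ ≡ 1 [MOD q] := by
          rw [he, pow_mul]
          have := h3.pow e
          rwa [one_pow] at this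
        exact (Nat.modEq_iff_dvd' hone).1 h4.symm
  · intro p hp
    rw [mem_image] at hp
    obtain ⟨d, hd, rfl⟩ := hp
    rw [hD', mem_filter] at hd
    obtain ⟨hdD, hdG⟩ := hd
    rw [hG, mem_filter, mem_filter, mem_Ioc] at hdG
    obtain ⟨⟨⟨hZp, -⟩, hpp, -⟩, hcop⟩ := hdG
    obtain ⟨S, hS, -, hdS⟩ := hDM d hdD
    have hd0 := hD0 d hdD
    rw [Nat.add_sub_cancel, Nat.mul_div_cancel_left _ hd0] at hcop
    refine ⟨hpp, hZp, ?_, ?_, ?_⟩
    · rw [hL]
      apply Nat.Coprime.prod_right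
      intro q hq
      rw [Nat.coprime_primes hpp (hQ q (hRQ q hq).1).1]
      intro heq
      have h3 := (hQ q (hRQ q hq).1).2.2.1
      omega
    · rw [Nat.add_sub_cancel, mul_comm d k]
      apply Nat.mul_dvd_mul_left
      rw [hdS, hL]
      apply prod_dvd_prod_of_subset
      intro q hq
      rw [hR, mem_filter]
      refine ⟨hS hq, fun hqk => ?_⟩
      have hqp := (hQ q (hQ'Q (hS hq))).1
      have hqd : q ∣ d := by
        rw [hdS]
        exact dvd_prod_of_mem _ hq
      exact (Nat.Prime.not_coprime_iff_dvd.2 ⟨q, hqp, hqk, hqd⟩) hcop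
    · rw [Nat.add_sub_cancel]
      exact Nat.dvd_mul_left k d
  · rw [card_image_of_injective _ hinj]
    refine le_trans ?_ hk
    apply mul_le_mul_of_nonneg_left _ (by positivity)
    exact_mod_cast hDc

end Pool.Agent.V1194.AGP
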