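import Mathlib
import Pool.Agent.V1194.AGP.Stage2

/-! Third stage of the method of Alford, Granville and Pomerance: a Carmichael number, all prime factors of which are
larger than `W`, and which has at most `D` prime factors. -/

set_option autoImplicit false

namespace Pool.Agent.V1194.AGP

open Finset

theorem stage3 {k L W κ D : ℕ} {P : Finset ℕ} (hL : 0 < L) (hkL : k.Coprime L) (hκ : 0 < κ)
    (hexp : ∀ a : ℕ, a.Coprime L → a ^ κ ≡ 1 [MOD L])
    (hP : ∀ p ∈ P, p.Prime ∧ W < p ∧ p.Coprime L ∧ p - 1 ∣ k * L ∧ k ∣ p - 1)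
    (hD : (κ : ℝ) * Real.log L < D) (hDP : D + 1 ≤ P.card) :
    ∃ T : Finset ℕ, T ⊆ P ∧ 2 ≤ T.card ∧ T.card ≤ D ∧ k * L ∣ (∏ p ∈ T, p) - 1 := by
  classical
  have : NeZero L := ⟨hL.ne'⟩
  have hκr : (0 : ℝ) < κ := by exact_mod_cast hκ
  have hLr : (0 : ℝ) < L := by exact_mod_cast hL
  set P₁ := P.erase (k * L + 1) with hP₁
  have hP₁c : D ≤ P₁.card := by
    have h3 : P.card - 1 ≤ P₁.card := pred_card_le_card_erase
    omega
  obtain ⟨P₂, hP₂, hP₂c⟩ := exists_subset_card_eq hP₁c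
  have hP₂P : ∀ p ∈ P₂, p ∈ P := fun p hp => mem_of_mem_erase (hP₂ hp)
  set f : ℕ → (ZMod L)ˣ := fun p => if h : p.Coprime L then ZMod.unitOfCoprime p h else 1 with hf
  have hfp : ∀ p ∈ P₂, ((f p : (ZMod L)ˣ) : ZMod L) = p := by
    intro p hp
    have h1 := (hP p (hP₂P p hp)).2.2.1
    rw [hf]
    simp only
    rw [dif_pos h1, ZMod.coe_unitOfCoprime]
  have hu : ∀ u : (ZMod L)ˣ, u ^ κ = 1 := by
    intro u
    have h1 := ZMod.val_coe_unit_coprime u
    have h2 := hexp _ h1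
    rw [← ZMod.natCast_eq_natCast_iff] at h2
    push_cast at h2
    rw [ZMod.natCast_zmod_val] at h2
    apply Units.ext
    rw [Units.val_pow_eq_pow_val, h2, Units.val_one]
  have hsmall : (L.totient : ℝ) * (1 - 1 / (κ : ℝ)) ^ P₂.card < 1 := by
    rw [hP₂c]
    have h1 : (0 : ℝ) ≤ 1 - 1 / (κ : ℝ) := by
      rw [sub_nonneg, div_le_one hκr]
      exact_mod_cast hκ
    have h2 : 1 - 1 / (κ : ℝ) ≤ Real.exp (-(1 / κ)) := Real.one_sub_le_exp_neg _
    have h3 : (1 - 1 / (κ : ℝ)) ^ D ≤ Real.exp (-(D / κ)) := by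
      calc (1 - 1 / (κ : ℝ)) ^ D ≤ (Real.exp (-(1 / κ))) ^ D := pow_le_pow_left₀ h1 h2 D
        _ = Real.exp (-(D / κ)) := by
          rw [← Real.exp_nat_mul]
          congr 1
          ring
    have h4 : (L.totient : ℝ) ≤ L := by exact_mod_cast Nat.totient_le L
    have h5 : (L : ℝ) < Real.exp (D / κ) := by
      rw [← Real.log_lt_iff_lt_exp hLr, lt_div_iff₀ hκr]
      linarith
    calc (L.totient : ℝ) * (1 - 1 / (κ : ℝ)) ^ D ≤ L * Real.exp (-(D / κ)) :=
          mul_le_mul h4 h3 (pow_nonneg h1 _) hLr.le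
      _ < Real.exp (D / κ) * Real.exp (-(D / κ)) := by
          apply mul_lt_mul_of_pos_right h5 (Real.exp_pos _)
      _ = 1 := by rw [← Real.exp_add]; simp
  obtain ⟨T, hT, hT0, hT1⟩ := dav L κ hκ hu P₂ f hsmall
  have hTP : ∀ p ∈ T, p ∈ P := fun p hp => hP₂P p (hT hp)
  have hprime : ∀ p ∈ T, p.Prime := fun p hp => (hP p (hTP p hp)).1
  have hprod1 : 1 ≤ ∏ p ∈ T, p := Nat.one_le_iff_ne_zero.2 (prod_ne_zero_iff.2 fun p hp => (hprime p hp).ne_zero)
  have hmodL : (∏ p ∈ T, p) ≡ 1 [MOD L] := by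
    rw [← ZMod.natCast_eq_natCast_iff]
    push_cast
    have h1 : ((∏ p ∈ T, f p : (ZMod L)ˣ) : ZMod L) = 1 := by rw [hT1, Units.val_one]
    rw [Units.coe_prod] at h1
    rw [← h1]
    exact prod_congr rfl fun p hp => (hfp p (hT hp)).symm
  have hmodk : (∏ p ∈ T, p) ≡ 1 [MOD k] := by
    have h1 : ∀ p ∈ T, p ≡ 1 [MOD k] := by
      intro p hp
      exact ((Nat.modEq_iff_dvd' (hprime p hp).one_lt.le).2 (hP p (hTP p hp)).2.2.2.2).symm
    rw [← ZMod.natCast_eq_natCast_iff]
    push_cast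
    have h2 : ∏ p ∈ T, ((p : ℕ) : ZMod k) = ∏ p ∈ T, (1 : ZMod k) := by
      apply prod_congr rfl
      intro p hp
      have := (ZMod.natCast_eq_natCast_iff p 1 k).2 (h1 p hp)
      rw [this, Nat.cast_one]
    rw [h2, prod_const_one]
  have hdvd : k * L ∣ (∏ p ∈ T, p) - 1 :=
    Nat.Coprime.mul_dvd_of_dvd_of_dvd hkL ((Nat.modEq_iff_dvd' hprod1).1 hmodk.symm)
      ((Nat.modEq_iff_dvd' hprod1).1 hmodL.symm)
  refine ⟨T, hTP, ?_, ?_, hdvd⟩
  · by_contra hcon
    have h1 : T.card = 1 := by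
      have := card_pos.2 hT0
      omega
    obtain ⟨p, rfl⟩ := card_eq_one.1 h1
    rw [prod_singleton] at hdvd
    have hpT := mem_singleton_self p
    have h2 := hP p (hTP p hpT)
    have h3 : p - 1 = k * L := Nat.dvd_antisymm h2.2.2.2.1 hdvd
    have h4 := hP₂ (hT hpT)
    rw [hP₁] at h4
    have h5 : p = k * L + 1 := by
      have := (hprime p hpT).one_lt
      omega
    exact ne_of_mem_erase h4 h5
  · rw [← hP₂c]
    exact card_le_card hT

/-- the number of Fermat liars of such a number -/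
theorem liars {T : Finset ℕ} {W D N : ℕ} (hT : ∀ p ∈ T, p.Prime ∧ W < p ∧ p - 1 ∣ N) (hW : 1 ≤ W) (h2 : 2 ≤ T.card)
    (hD : T.card ≤ D) (hN : N ∣ (∏ p ∈ T, p) - 1) :
    W < ∏ p ∈ T, p ∧ ¬ (∏ p ∈ T, p).Prime ∧
      (1 - (D : ℝ) / W) * ((∏ p ∈ T, p : ℕ) : ℝ) ≤
        (((range (∏ p ∈ T, p)).filter (fun a => a ^ ((∏ p ∈ T, p) - 1) ≡ 1 [MOD (∏ p ∈ T, p)])).card : ℝ) := by
  classical
  obtain ⟨n, hn⟩ : ∃ n : ℕ, n = ∏ p ∈ T, p := ⟨_, rfl⟩
  have hTp : ∀ p ∈ T, p.Prime := fun p hp => (hT p hp).1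
  have hpf : n.primeFactors = T := by rw [hn, Nat.primeFactors_prod hTp]
  have hn0 : 0 < n := by
    rw [hn]
    exact prod_pos fun p hp => (hTp p hp).pos
  have hWr : (1 : ℝ) ≤ W := by exact_mod_cast hW
  rw [← hn] at hN ⊢
  refine ⟨?_, ?_, ?_⟩
  · obtain ⟨p, hp⟩ := card_pos.1 (by omega : 0 < T.card)
    refine lt_of_lt_of_le (hT p hp).2.1 (Nat.le_of_dvd hn0 ?_)
    rw [hn]
    exact dvd_prod_of_mem _ hp
  · intro hnp
    rw [hnp.primeFactors] at hpf
    rw [← hpf, card_singleton] at h2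
    omega
  · have hsub : (range n).filter (fun a => n.Coprime a) ⊆ (range n).filter (fun a => a ^ (n - 1) ≡ 1 [MOD n]) := by
      intro a ha
      rw [mem_filter] at ha ⊢
      refine ⟨ha.1, ?_⟩
      rcases Nat.eq_zero_or_pos a with h0 | h0
      · subst h0
        have h1 := ha.2
        rw [Nat.coprime_zero_right] at h1
        rw [h1]
        exact Nat.modEq_one
      · have hone : 1 ≤ a ^ (n - 1) := Nat.one_le_iff_ne_zero.2 (by positivity)
        apply Nat.ModEq.symm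
        rw [Nat.modEq_iff_dvd' hone]
        have hgoal : (∏ p ∈ T, p) ∣ a ^ (n - 1) - 1 := by
          apply Finset.prod_primes_dvd
          · intro q hq
            exact (hTp q hq).prime
          · intro q hq
            have hqp := hTp q hq
            obtain ⟨e, he⟩ := (hT q hq).2.2.trans hN
            have hcop : a.Coprime q := by
              apply Nat.Coprime.coprime_dvd_right _ ha.2.symm
              rw [hn]
              exact dvd_prod_of_mem _ hq
            have h3 : a ^ (q - 1) ≡ 1 [MOD q] := by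
              have := Nat.ModEq.pow_totient hcop
              rwa [Nat.totient_prime hqp] at this
            have h4 : a ^ (n - 1) ≡ 1 [MOD q] := by
              rw [he, pow_mul]
              have := h3.pow e
              rwa [one_pow] at this
            exact (Nat.modEq_iff_dvd' hone).1 h4.symm
        rwa [← hn] at hgoal
    have h1 : (n.totient : ℝ) ≤
        (((range n).filter (fun a => a ^ (n - 1) ≡ 1 [MOD n])).card : ℝ) := by
      have h2 := card_le_card hsub
      rw [← Nat.totient_eq_card_coprime] at h2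
      exact_mod_cast h2
    refine le_trans ?_ h1
    have h3 : (n.totient : ℝ) = n * ∏ p ∈ T, (1 - (p : ℝ)⁻¹) := by
      have h4 := Nat.totient_eq_mul_prod_factors n
      rw [hpf] at h4
      have h5 : ((n.totient : ℚ) : ℝ) = ((n * ∏ p ∈ T, (1 - (p : ℚ)⁻¹) : ℚ) : ℝ) := by rw [h4]
      push_cast at h5
      exact h5
    rw [h3, mul_comm]
    apply mul_le_mul_of_nonneg_left _ (Nat.cast_nonneg n)
    have hW0 : (0 : ℝ) < W := by linarith
    have h01 : 0 ≤ 1 - (W : ℝ)⁻¹ := by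
      rw [sub_nonneg]
      exact inv_le_one_of_one_le₀ hWr
    calc 1 - (D : ℝ) / W ≤ 1 - (T.card : ℝ) / W := by
          have h5 : (T.card : ℝ) ≤ D := by exact_mod_cast hD
          have h6 := div_le_div_of_nonneg_right h5 hW0.le
          linarith
      _ = 1 + (T.card : ℝ) * (-(W : ℝ)⁻¹) := by ring
      _ ≤ (1 + (-(W : ℝ)⁻¹)) ^ T.card := by
          apply one_add_mul_le_pow
          have := inv_le_one_of_one_le₀ hWr
          linarith
      _ = ∏ p ∈ T, (1 - (W : ℝ)⁻¹) := by rw [prod_const, sub_eq_add_neg]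
      _ ≤ ∏ p ∈ T, (1 - (p : ℝ)⁻¹) := by
          apply prod_le_prod
          · intro p _
            exact h01
          · intro p hp
            have h7 : (W : ℝ) ≤ p := by exact_mod_cast (hT p hp).2.1.le
            have h8 := inv_anti₀ hW0 h7
            linarith

end Pool.Agent.V1194.AGP
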