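import Mathlib
import Pool.Agent.V1194.AGP.Stage3
import Pool.Agent.V1194.AGP.Num
import Pool.Agent.Y835.SC.Page

/-! Infinitely many Carmichael numbers, all of whose prime factors are much larger than their number. -/

set_option autoImplicit false

namespace Pool.Agent.V1194.AGP

open Finset

/-- For all `ε > 0` and `N` there are `W > N` and a Carmichael number `∏ p ∈ T, p` with `D < ε W` prime factors at
most, all larger than `W`. -/
theorem carm (ε : ℝ) (hε : 0 < ε) (N : ℕ) :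
    ∃ (T : Finset ℕ) (W D M : ℕ), N < W ∧ (D : ℝ) < ε * W ∧ 2 ≤ T.card ∧ T.card ≤ D ∧
      (∀ p ∈ T, p.Prime ∧ W < p ∧ p - 1 ∣ M) ∧ M ∣ (∏ p ∈ T, p) - 1 := by
  obtain ⟨K, c, hK, hc, z0, hpage⟩ := Pool.Agent.Y835.SC.page
  have hP : PageProp K c z0 := hpage
  have hKr : (1 : ℝ) ≤ K := by exact_mod_cast hK
  obtain ⟨r, hr1, hrz, hrN, n1, n2, n3, n4⟩ := numerics K hK c ε hc hε N z0
  have hrr : (1 : ℝ) ≤ r := by exact_mod_cast hr1
  obtain ⟨z, κ, Q, hz1, hz2, hκ0, hκ, hQ, hQc, hQ2⟩ := stage1 hc hP r hrz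
  -- the size of `z`
  have hz1' : 1 ≤ z := le_trans (Nat.one_le_two_pow) hz1
  have hzr : (1 : ℝ) ≤ z := by exact_mod_cast hz1'
  have hlz0 : 0 ≤ Real.log z := Real.log_nonneg hzr
  have hlz : Real.log z ≤ 16 * r ^ 2 := by
    have h1 : Real.log z ≤ Real.log ((2 : ℝ) ^ (16 * (r * r))) := by
      apply Real.log_le_log (by linarith)
      exact_mod_cast hz2
    rw [Real.log_pow] at h1
    have h2 : Real.log 2 ≤ 1 := by
      have := Real.log_two_lt_d9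
      linarith
    have h3 : ((16 * (r * r) : ℕ) : ℝ) * Real.log 2 ≤ ((16 * (r * r) : ℕ) : ℝ) * 1 :=
      mul_le_mul_of_nonneg_left h2 (Nat.cast_nonneg _)
    push_cast at h1 h3
    nlinarith
  have hlzK : Real.log ((z ^ K : ℕ) : ℝ) = K * Real.log z := by
    push_cast
    rw [Real.log_pow]
  have hlzK2 : Real.log ((z ^ K : ℕ) : ℝ) ≤ 16 * K * r ^ 2 := by
    rw [hlzK]
    calc (K : ℝ) * Real.log z ≤ K * (16 * r ^ 2) := mul_le_mul_of_nonneg_left hlz (by linarith)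
      _ = _ := by ring
  have hlzK0 : 0 ≤ Real.log ((z ^ K : ℕ) : ℝ) := by
    rw [hlzK]
    positivity
  -- the number of elements of `Q`
  obtain ⟨t, ht⟩ : ∃ t : ℕ, t = r ^ 3 := ⟨_, rfl⟩
  have ht1 : 1 ≤ t := by rw [ht]; exact Nat.one_le_pow _ _ hr1
  have htr : (t : ℝ) = (r : ℝ) ^ 3 := by rw [ht]; push_cast; rfl
  have hQt : 2 * t + 1 ≤ Q.card := by
    have h1 : (2 * (r : ℝ) ^ 3 + 1) * (1 + 16 * K * r ^ 2) ≤ Q.card * (1 + 16 * K * r ^ 2) := by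
      refine n1.trans (hQc.trans ?_)
      rw [mul_comm]
      apply mul_le_mul_of_nonneg_left _ (Nat.cast_nonneg _)
      linarith
    have h2 : 2 * (r : ℝ) ^ 3 + 1 ≤ Q.card := le_of_mul_le_mul_right h1 (by positivity)
    rw [← htr] at h2
    exact_mod_cast h2
  obtain ⟨W, hW⟩ : ∃ W : ℕ, W = z ^ (16 * K * t) := ⟨_, rfl⟩
  have hlW : Real.log ((W ^ K : ℕ) : ℝ) ≤ 256 * K ^ 2 * r ^ 5 := by
    rw [hW, ← pow_mul]
    push_cast
    rw [Real.log_pow]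
    push_cast
    rw [htr]
    calc 16 * (K : ℝ) * r ^ 3 * K * Real.log z ≤ 16 * (K : ℝ) * r ^ 3 * K * (16 * r ^ 2) :=
          mul_le_mul_of_nonneg_left hlz (by positivity)
      _ = _ := by ring
  have h2z : (2 : ℝ) ^ r ≤ z := by
    have h1 : 2 ^ r ≤ z := le_trans (Nat.pow_le_pow_right (by norm_num) (by omega)) hz1
    exact_mod_cast h1
  have hz0 : z0 ≤ z := by
    have h1 : 2 ^ r ≤ z := by exact_mod_cast h2z
    exact hrz.trans h1
  have hst2 : 2 * (t : ℝ) * (1 + Real.log (((z ^ (16 * K * t)) ^ K : ℕ) : ℝ)) ≤ c * z := by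
    rw [← hW]
    calc 2 * (t : ℝ) * (1 + Real.log ((W ^ K : ℕ) : ℝ)) ≤ 2 * (r : ℝ) ^ 3 * (1 + 256 * K ^ 2 * r ^ 5) := by
          rw [htr]
          apply mul_le_mul_of_nonneg_left _ (by positivity)
          linarith
      _ ≤ c * 2 ^ r := n2
      _ ≤ c * z := mul_le_mul_of_nonneg_left h2z hc.le
  obtain ⟨k, L, P, hk, hL, hLle, hkL, hexp, hPp, hPc⟩ := stage2 hK hc hP hz0 hz1' hQ ht1 hQt hst2
  rw [← hW] at hPp hPc
  -- the bound for the Davenport constant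
  have hLr : (1 : ℝ) ≤ L := by exact_mod_cast hL
  have hlogL : Real.log L ≤ 2 ^ r * (16 * K * r ^ 2) := by
    have h1 : Real.log L ≤ Real.log (((z ^ K) ^ Q.card : ℕ) : ℝ) := by
      apply Real.log_le_log (by linarith)
      exact_mod_cast hLle
    have h2 : Real.log (((z ^ K) ^ Q.card : ℕ) : ℝ) = Q.card * Real.log ((z ^ K : ℕ) : ℝ) := by
      rw [Nat.cast_pow (z ^ K), Real.log_pow]
    rw [h2] at h1
    refine h1.trans ?_
    apply mul_le_mul _ hlzK2 hlzK0 (by positivity)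
    exact_mod_cast hQ2
  have hlogL0 : 0 ≤ Real.log L := Real.log_nonneg hLr
  have hκr : (κ : ℝ) ≤ 2 ^ (16 * (K + 1) * r ^ 2) := by
    have h1 : κ ≤ (2 ^ (16 * (r * r))) ^ (K + 1) := hκ.trans (Nat.pow_le_pow_left hz2 _)
    have h2 : (2 ^ (16 * (r * r))) ^ (K + 1) = 2 ^ (16 * (K + 1) * r ^ 2) := by
      rw [← pow_mul]
      congr 1
      ring
    rw [h2] at h1
    exact_mod_cast h1
  have hκL : (κ : ℝ) * Real.log L ≤ 2 ^ (16 * (K + 1) * r ^ 2 + r) * (16 * K * r ^ 2) := by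
    calc (κ : ℝ) * Real.log L ≤ 2 ^ (16 * (K + 1) * r ^ 2) * (2 ^ r * (16 * K * r ^ 2)) :=
          mul_le_mul hκr hlogL hlogL0 (by positivity)
      _ = _ := by rw [pow_add]; ring
  obtain ⟨D, hD⟩ : ∃ D : ℕ, D = ⌊(κ : ℝ) * Real.log L⌋₊ + 1 := ⟨_, rfl⟩
  have hD1 : (κ : ℝ) * Real.log L < D := by
    rw [hD]
    push_cast
    exact Nat.lt_floor_add_one _
  have hD2 : (D : ℝ) + 1 ≤ 2 ^ (16 * (K + 1) * r ^ 2 + r) * (16 * K * r ^ 2) + 2 := by
    have h1 : ((⌊(κ : ℝ) * Real.log L⌋₊ : ℕ) : ℝ) ≤ κ * Real.log L := Nat.floor_le (by positivity)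
    rw [hD]
    push_cast
    linarith
  have hPc2 : c / 2 * 2 ^ t ≤ (1 + 256 * (K : ℝ) ^ 2 * r ^ 5) * P.card := by
    refine hPc.trans ?_
    apply mul_le_mul_of_nonneg_right _ (Nat.cast_nonneg _)
    linarith
  have hDP : D + 1 ≤ P.card := by
    have h1 : (1 + 256 * (K : ℝ) ^ 2 * r ^ 5) * ((D : ℝ) + 1) ≤ (1 + 256 * (K : ℝ) ^ 2 * r ^ 5) * P.card := by
      refine le_trans ?_ hPc2
      rw [ht]
      exact (mul_le_mul_of_nonneg_left hD2 (by positivity)).trans n3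
    have h2 : (D : ℝ) + 1 ≤ P.card := le_of_mul_le_mul_left h1 (by positivity)
    exact_mod_cast h2
  obtain ⟨T, hTP, hT2, hTD, hdvd⟩ := stage3 hL hkL hκ0 hexp hPp hD1 hDP
  -- the size of `W`
  have hWbig : (2 : ℝ) ^ (r ^ 4) ≤ W := by
    have h1 : 2 ^ (r ^ 4) ≤ W := by
      rw [hW, ht]
      calc 2 ^ (r ^ 4) = (2 ^ r) ^ (r ^ 3) := by rw [← pow_mul]; congr 1; ring
        _ ≤ z ^ (r ^ 3) := Nat.pow_le_pow_left (by exact_mod_cast h2z) _
        _ ≤ z ^ (16 * K * r ^ 3) := by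
            apply Nat.pow_le_pow_right hz1'
            apply Nat.le_mul_of_pos_left
            omega
    exact_mod_cast h1
  refine ⟨T, W, D, k * L, ?_, ?_, hT2, hTD, fun p hp => ⟨(hPp p (hTP hp)).1, (hPp p (hTP hp)).2.1,
    (hPp p (hTP hp)).2.2.2.1⟩, hdvd⟩
  · have h1 : 2 ^ (r ^ 4) ≤ W := by exact_mod_cast hWbig
    calc N ≤ r := hrN
      _ < 2 ^ r := Nat.lt_two_pow_self
      _ ≤ 2 ^ (r ^ 4) := Nat.pow_le_pow_right (by norm_num) (Nat.le_self_pow (by norm_num) r)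
      _ ≤ W := h1
  · -- `D + 1 ≤ (c / 2) 2 ^ (r ^ 3)`
    have h1 : (D : ℝ) + 1 ≤ c / 2 * 2 ^ (r ^ 3) := by
      have h2 : (1 : ℝ) ≤ 1 + 256 * (K : ℝ) ^ 2 * r ^ 5 := by
        have : 0 ≤ 256 * (K : ℝ) ^ 2 * r ^ 5 := by positivity
        linarith
      refine le_trans ?_ n3
      refine hD2.trans ?_
      exact le_mul_of_one_le_left (by positivity) h2
    have h3 : c / 2 * 2 ^ (r ^ 3) ≤ c * 2 ^ (r ^ 3) := by
      apply mul_le_mul_of_nonneg_right _ (by positivity)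
      linarith
    have h4 : ε * 2 ^ (r ^ 4) ≤ ε * W := mul_le_mul_of_nonneg_left hWbig hε.le
    linarith

/-- **The upper limit of the proportion of Fermat liars is one.** -/
theorem limsup_liars (ε : ℝ) (hε : 0 < ε) (N : ℕ) : ∃ n : ℕ, N < n ∧ 1 < n ∧ ¬ Nat.Prime n ∧
      (1 - ε) * (n : ℝ) < (((Finset.range n).filter (fun a => a ^ (n - 1) ≡ 1 [MOD n])).card : ℝ) := by
  obtain ⟨T, W, D, M, hNW, hDW, hT2, hTD, hT, hM⟩ := carm ε hε N
  have hW1 : 1 ≤ W := by omega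
  obtain ⟨h1, h2, h3⟩ := liars hT hW1 hT2 hTD hM
  refine ⟨∏ p ∈ T, p, by omega, by omega, h2, lt_of_lt_of_le ?_ h3⟩
  have hWr : (0 : ℝ) < W := by exact_mod_cast hW1
  have hn : (0 : ℝ) < ((∏ p ∈ T, p : ℕ) : ℝ) := by
    have : 0 < ∏ p ∈ T, p := by omega
    exact_mod_cast this
  apply mul_lt_mul_of_pos_right _ hn
  have h4 : (D : ℝ) / W < ε := by
    rw [div_lt_iff₀ hWr]
    exact hDW
  linarith

end Pool.Agent.V1194.AGP
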